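import Pool.Agent.W277X.PI.Up

/-!
# The `p`-intersection number of unbalanced complete bipartite graphs

Let `p ≥ 1` be fixed and let `a, b → ∞` such that `a / b` tends to a real number `α > 0`. We determine the
asymptotic behaviour of the `p`-intersection number of the complete bipartite graph `K_{a,b}`:

`ϑ_p(K_{a,b}) = (1 + o(1)) L_p(a / b) a b`,

where `L_p(α)` is the value of the following linear program. Its variables are nonnegative weights `w(x, y)` on
finitely many pairs `(x, y)` of natural numbers (the number of vertices of the two classes in a set of a `p`-edge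
clique cover):

minimize `∑ w(x, y)` subject to `∑ w(x, y) x y ≥ p`, `∑ w(x, y) x (x - 1) ≤ (p - 1) α`,
`∑ w(x, y) y (y - 1) ≤ (p - 1) / α`.

The lower bound `ϑ_p(K_{a,b}) ≥ L_p(a / b) a b` holds for all `a` and `b` (double counting). For the upper bound a
template, a disjoint union of complete bipartite graphs in the proportions of a solution of the linear program, is
packed into the graph by the weighted nibble theorem; each pair of vertices of different classes has `p` labels and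
each pair of vertices of the same class has `p - 1` labels, and the labels which are not used are few.

Explicit values:
* `L_1(α) = 1`, and `L_p(1 / α) = L_p(α)`;
* `L_p(α) = 2 - (p - 1) α / p - 1 / α` for `1 ≤ α ≤ p / (p - 1)`, so that
  `ϑ_p(K_{a,b}) ~ 2 a b - (p - 1) a² / p - b²` for `b ≤ a ≤ p b / (p - 1)`;
* for `p = 2` and all `α ≥ 1`, `L_2(α)` is the largest of the numbers
  `4 / (c + 1) - α / (c (c + 1)) - (3 c + 1) / (2 (c + 1) α)` and
  `(4 c + 2 - α) / (c + 1)² - (3 c + 1) / (2 (c + 1) α)`, `c = 1, 2, 3, …`;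
* `L_p(α) ≥ p / (X Y)` with `X = p (p + (p - 1) α) / (2 p - 1)`, `Y = p (p + (p - 1) / α) / (2 p - 1)`, with
  equality if `X` and `Y` are integers.
-/

set_option autoImplicit false

namespace Pool.Agent.Results.MP_721e2b_co.UnbalancedBipartite

open Finset Filter Topology

/-- `S` is a `p`-intersection representation of the graph `G` on a set of `t` elements: distinct vertices `u`, `v`
are adjacent if and only if `|S u ∩ S v| ≥ p`. -/
def IsRep {V : Type} (G : SimpleGraph V) (p t : ℕ) (S : V → Finset (Fin t)) : Prop :=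
  ∀ u v, u ≠ v → (G.Adj u v ↔ p ≤ (S u ∩ S v).card)

/-- The `p`-intersection number `ϑ_p(G)`: the least `t` for which there is a representation. -/
noncomputable def theta {V : Type} (G : SimpleGraph V) (p : ℕ) : ℕ :=
  sInf {t : ℕ | ∃ S : V → Finset (Fin t), IsRep G p t S}

/-- A feasible point of the linear program: the pair `(x i, y i)` has the weight `w i`. -/
structure Feasible (p : ℕ) (α : ℝ) {m : ℕ} (x y : Fin m → ℕ) (w : Fin m → ℝ) : Prop where
  nonneg : ∀ i, 0 ≤ w i
  cross : (p : ℝ) ≤ ∑ i, w i * (x i * y i)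
  left : ∑ i, w i * (x i * (x i - 1)) ≤ (p - 1) * α
  right : ∑ i, w i * (y i * (y i - 1)) ≤ (p - 1) / α

/-- The value `L_p(α)` of the linear program: the infimum of the total weights of the feasible points. -/
noncomputable def L (p : ℕ) (α : ℝ) : ℝ :=
  sInf {z | ∃ (m : ℕ) (x y : Fin m → ℕ) (w : Fin m → ℝ), Feasible p α x y w ∧ z = ∑ i, w i}

/-- The numbers of the first family (exact values of `L_p` in certain intervals); for `p = 2` and `h = 1` it is
`4 / (c + 1) - α / (c (c + 1)) - (3 c + 1) / (2 (c + 1) α)`. -/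
noncomputable def Φ (p c h : ℕ) (α : ℝ) : ℝ :=
  4 * p / ((c + 1) * (h + 1)) - 2 * (p - 1) * α / (c * (c + 1) * (h + 1)) -
    (p - 1) / α * (1 / (h * (h + 1)) + 2 * c / ((c + 1) * (h + 1)))

/-- The numbers of the second family, for `p = 2`. -/
noncomputable def Ψ (c : ℕ) (α : ℝ) : ℝ :=
  (4 * c + 2 - α) / (c + 1) ^ 2 - (3 * c + 1) / (2 * (c + 1) * α)

/-! ### the linear program -/

theorem sum_nonneg' {p : ℕ} {α : ℝ} {m : ℕ} {x y : Fin m → ℕ} {w : Fin m → ℝ}
    (h : Feasible p α x y w) : 0 ≤ ∑ i, w i := sum_nonneg fun i _ => h.nonneg i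

theorem bddBelow (p : ℕ) (α : ℝ) : BddBelow {z | ∃ (m : ℕ) (x y : Fin m → ℕ) (w : Fin m → ℝ),
    Feasible p α x y w ∧ z = ∑ i, w i} := by
  refine ⟨0, ?_⟩
  rintro z ⟨m, x, y, w, h, rfl⟩
  exact sum_nonneg' h

theorem L_le {p : ℕ} {α : ℝ} {m : ℕ} {x y : Fin m → ℕ} {w : Fin m → ℝ}
    (h : Feasible p α x y w) : L p α ≤ ∑ i, w i := csInf_le (bddBelow p α) ⟨m, x, y, w, h, rfl⟩

theorem nonempty (p : ℕ) (hp : 1 ≤ p) {α : ℝ} (hα : 0 < α) :
    {z | ∃ (m : ℕ) (x y : Fin m → ℕ) (w : Fin m → ℝ), Feasible p α x y w ∧ z = ∑ i, w i}.Nonempty := by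
  have hp1 : (1 : ℝ) ≤ p := by exact_mod_cast hp
  refine ⟨_, 1, fun _ => 1, fun _ => 1, fun _ => (p : ℝ), ⟨fun _ => by positivity, ?_, ?_, ?_⟩, rfl⟩
  · simp
  · simp only [Nat.cast_one, sub_self, mul_zero, sum_const_zero]
    exact mul_nonneg (by linarith) hα.le
  · simp only [Nat.cast_one, sub_self, mul_zero, sum_const_zero]
    exact div_nonneg (by linarith) hα.le

theorem exists_near (p : ℕ) (hp : 1 ≤ p) {α : ℝ} (hα : 0 < α) {c : ℝ} (hc : L p α < c) :
    ∃ (m : ℕ) (x y : Fin m → ℕ) (w : Fin m → ℝ), Feasible p α x y w ∧ ∑ i, w i < c := by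
  obtain ⟨z, ⟨m, x, y, w, h, rfl⟩, hz⟩ := exists_lt_of_csInf_lt (nonempty p hp hα) hc
  exact ⟨m, x, y, w, h, hz⟩

theorem le_L (p : ℕ) (hp : 1 ≤ p) {α : ℝ} (hα : 0 < α) {c : ℝ}
    (h : ∀ (m : ℕ) (x y : Fin m → ℕ) (w : Fin m → ℝ), Feasible p α x y w → c ≤ ∑ i, w i) :
    c ≤ L p α := by
  refine le_csInf (nonempty p hp hα) ?_
  rintro z ⟨m, x, y, w, hf, rfl⟩
  exact h m x y w hf

/-- weak duality -/
theorem dual_le (p : ℕ) (hp : 1 ≤ p) {α : ℝ} (hα : 0 < α) (u v s : ℝ) (hu : 0 ≤ u) (hv : 0 ≤ v)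
    (hs : 0 ≤ s) (h : ∀ x y : ℕ, u * (x * y) - v * (x * (x - 1)) - s * (y * (y - 1)) ≤ 1) :
    p * u - (p - 1) * (v * α + s / α) ≤ L p α := by
  refine le_L p hp hα fun m x y w hf => ?_
  have h1 : ∑ i, w i * (u * (x i * y i) - v * (x i * (x i - 1)) - s * (y i * (y i - 1))) ≤
      ∑ i, w i := by
    refine sum_le_sum fun i _ => ?_
    have h2 := mul_le_mul_of_nonneg_left (h (x i) (y i)) (hf.nonneg i)
    linarith
  have h3 : ∑ i, w i * (u * (x i * y i) - v * (x i * (x i - 1)) - s * (y i * (y i - 1))) =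
      u * ∑ i, w i * (x i * y i) - v * ∑ i, w i * (x i * (x i - 1)) -
        s * ∑ i, w i * (y i * (y i - 1)) := by
    rw [mul_sum, mul_sum, mul_sum, ← sum_sub_distrib, ← sum_sub_distrib]
    refine sum_congr rfl fun i _ => ?_
    ring
  rw [h3] at h1
  have h4 := mul_le_mul_of_nonneg_left hf.cross hu
  have h5 := mul_le_mul_of_nonneg_left hf.left hv
  have h6 := mul_le_mul_of_nonneg_left hf.right hs
  have h7 : s * ((p - 1) / α) = (p - 1) * (s / α) := by ring
  rw [h7] at h6
  nlinarith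

theorem L_scale (p : ℕ) (hp : 1 ≤ p) {α β ρ : ℝ} (hα : 0 < α) (hβ : 0 < β) (hρ : 1 ≤ ρ)
    (h1 : β ≤ ρ * α) (h2 : α ≤ ρ * β) : L p α ≤ L p β + p * (1 - 1 / ρ) := by
  have hp1 : (1 : ℝ) ≤ p := by exact_mod_cast hp
  have hρ0 : 0 < ρ := by linarith
  have h0 : 0 ≤ 1 - 1 / ρ := by
    rw [sub_nonneg, div_le_one hρ0]
    exact hρ
  have h0' : 1 / ρ ≤ 1 := by linarith
  have h0'' : 0 < 1 / ρ := by positivity
  suffices h : L p α - p * (1 - 1 / ρ) ≤ L p β by linarith
  refine le_L p hp hβ fun m x y w hf => ?_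
  have hf2 : Feasible p α (Fin.cons 1 x : Fin (m + 1) → ℕ) (Fin.cons 1 y : Fin (m + 1) → ℕ)
      (Fin.cons (p * (1 - 1 / ρ)) (fun i => w i * (1 / ρ)) : Fin (m + 1) → ℝ) := by
    refine ⟨fun i => ?_, ?_, ?_, ?_⟩
    · refine Fin.cases ?_ (fun j => ?_) i
      · simp only [Fin.cons_zero]
        positivity
      · simp only [Fin.cons_succ]
        exact mul_nonneg (hf.nonneg j) h0''.le
    · rw [Fin.sum_univ_succ]
      simp only [Fin.cons_zero, Fin.cons_succ, Nat.cast_one, mul_one]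
      have e1 : ∑ i, w i * (1 / ρ) * ((x i : ℝ) * y i) = (1 / ρ) * ∑ i, w i * (x i * y i) := by
        rw [mul_sum]
        exact sum_congr rfl fun i _ => by ring
      rw [e1]
      have e2 := mul_le_mul_of_nonneg_left hf.cross h0''.le
      linarith
    · rw [Fin.sum_univ_succ]
      simp only [Fin.cons_zero, Fin.cons_succ, Nat.cast_one, sub_self, mul_zero, zero_add]
      have e1 : ∑ i, w i * (1 / ρ) * ((x i : ℝ) * (x i - 1)) =
          (1 / ρ) * ∑ i, w i * (x i * (x i - 1)) := by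
        rw [mul_sum]
        exact sum_congr rfl fun i _ => by ring
      rw [e1]
      have e2 := mul_le_mul_of_nonneg_left hf.left h0''.le
      have e3 : (1 / ρ) * ((p - 1) * β) ≤ (p - 1) * α := by
        rw [one_div, inv_mul_le_iff₀ hρ0]
        nlinarith
      linarith
    · rw [Fin.sum_univ_succ]
      simp only [Fin.cons_zero, Fin.cons_succ, Nat.cast_one, sub_self, mul_zero, zero_add]
      have e1 : ∑ i, w i * (1 / ρ) * ((y i : ℝ) * (y i - 1)) =
          (1 / ρ) * ∑ i, w i * (y i * (y i - 1)) := by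
        rw [mul_sum]
        exact sum_congr rfl fun i _ => by ring
      rw [e1]
      have e2 := mul_le_mul_of_nonneg_left hf.right h0''.le
      have e3 : (1 / ρ) * ((p - 1) / β) ≤ (p - 1) / α := by
        rw [one_div, inv_mul_le_iff₀ hρ0, ← mul_div_assoc, div_le_div_iff₀ hβ hα]
        nlinarith
      linarith
  have h3 := L_le hf2
  rw [Fin.sum_univ_succ] at h3
  simp only [Fin.cons_zero, Fin.cons_succ] at h3
  have h4 : ∑ i, w i * (1 / ρ) ≤ ∑ i, w i := by
    refine sum_le_sum fun i _ => ?_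
    have := mul_le_mul_of_nonneg_left h0' (hf.nonneg i)
    linarith
  linarith

theorem L_symm_le (p : ℕ) (hp : 1 ≤ p) {α : ℝ} (hα : 0 < α) : L p (1 / α) ≤ L p α := by
  refine le_L p hp hα fun m x y w hf => ?_
  refine L_le (x := y) (y := x) ⟨hf.nonneg, ?_, ?_, ?_⟩
  · refine hf.cross.trans (le_of_eq (sum_congr rfl fun i _ => ?_))
    ring
  · refine hf.right.trans (le_of_eq ?_)
    ring
  · refine hf.left.trans (le_of_eq ?_)
    rw [div_div_eq_mul_div, div_one]

theorem L_symm (p : ℕ) (hp : 1 ≤ p) {α : ℝ} (hα : 0 < α) : L p (1 / α) = L p α := by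
  refine le_antisymm (L_symm_le p hp hα) ?_
  have h := L_symm_le p hp (one_div_pos.2 hα)
  rwa [one_div_one_div] at h

/-! ### the lower bound -/

/-- double counting -/
theorem dc {A B : Type} [Fintype A] [Fintype B] {t : ℕ} (S : A → Finset (Fin t))
    (T : B → Finset (Fin t)) :
    ∑ j, (univ.filter (fun g => j ∈ S g)).card * (univ.filter (fun h => j ∈ T h)).card =
      ∑ g, ∑ h, (S g ∩ T h).card := by
  classical
  have h1 : ∀ g h, (S g ∩ T h).card = ∑ j, (if j ∈ S g then 1 else 0) * (if j ∈ T h then 1 else 0) := by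
    intro g h
    rw [card_eq_sum_ones, ← sum_filter_add_sum_filter_not univ (fun j => j ∈ S g ∩ T h)]
    rw [filter_mem_eq_inter, univ_inter]
    have h2 : ∑ j ∈ univ.filter (fun j => ¬ j ∈ S g ∩ T h),
        ((if j ∈ S g then 1 else 0) * (if j ∈ T h then 1 else 0) : ℕ) = 0 := by
      refine sum_eq_zero fun j hj => ?_
      have h3 := (mem_filter.1 hj).2
      rw [mem_inter, not_and_or] at h3
      rcases h3 with h3 | h3 <;> simp [h3]
    rw [h2, add_zero]
    refine sum_congr rfl fun j hj => ?_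
    rw [mem_inter] at hj
    simp [hj.1, hj.2]
  simp only [h1, card_filter]
  rw [sum_congr rfl (fun j _ => sum_mul_sum _ _ _ _)]
  rw [sum_comm]
  refine sum_congr rfl fun g _ => ?_
  rw [sum_comm]

theorem dc_same {A : Type} [Fintype A] {t p : ℕ} (hp : 1 ≤ p) (S : A → Finset (Fin t))
    (h : ∀ g g', g ≠ g' → (S g ∩ S g').card < p) :
    ∑ j, ((univ.filter (fun g => j ∈ S g)).card : ℝ) * ((univ.filter (fun g => j ∈ S g)).card - 1) ≤
      (p - 1) * (Fintype.card A : ℝ) ^ 2 := by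
  classical
  have h1 := dc S S
  have h2 : ∑ j, (univ.filter (fun g => j ∈ S g)).card = ∑ g, (S g).card := by
    simp only [card_filter]
    rw [sum_comm]
    refine sum_congr rfl fun g _ => ?_
    rw [← card_filter, filter_mem_eq_inter, univ_inter]
  have h3 : ∑ g, ∑ g', (S g ∩ S g').card ≤ ∑ g, ((S g).card + Fintype.card A * (p - 1)) := by
    refine sum_le_sum fun g _ => ?_
    rw [← add_sum_erase univ _ (mem_univ g), inter_self]
    refine Nat.add_le_add_left ?_ _
    calc ∑ g' ∈ univ.erase g, (S g ∩ S g').card ≤ ∑ _g' ∈ univ.erase g, (p - 1) := by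
          refine sum_le_sum fun g' hg' => ?_
          have := h g g' (ne_of_mem_erase hg').symm
          omega
      _ = (univ.erase g).card * (p - 1) := by rw [sum_const, smul_eq_mul]
      _ ≤ Fintype.card A * (p - 1) := Nat.mul_le_mul_right _ ((card_le_univ _))
  rw [sum_add_distrib, sum_const, card_univ, smul_eq_mul] at h3
  have hp1 : ((p - 1 : ℕ) : ℝ) = (p : ℝ) - 1 := by
    rw [Nat.cast_sub hp]
    simp
  have h1R : ∑ j, ((univ.filter (fun g => j ∈ S g)).card : ℝ) * (univ.filter (fun g => j ∈ S g)).card =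
      ((∑ g, ∑ g', (S g ∩ S g').card : ℕ) : ℝ) := by
    rw [← h1]
    push_cast
    rfl
  have h2R : ∑ j, ((univ.filter (fun g => j ∈ S g)).card : ℝ) = ((∑ g, (S g).card : ℕ) : ℝ) := by
    rw [← h2]
    push_cast
    rfl
  have h3R : ((∑ g, ∑ g', (S g ∩ S g').card : ℕ) : ℝ) ≤ ((∑ g, (S g).card : ℕ) : ℝ) +
      Fintype.card A * (Fintype.card A * ((p : ℝ) - 1)) := by
    rw [← hp1]
    exact_mod_cast h3
  have h4 : ∑ j, ((univ.filter (fun g => j ∈ S g)).card : ℝ) *
      ((univ.filter (fun g => j ∈ S g)).card - 1) =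
      ∑ j, ((univ.filter (fun g => j ∈ S g)).card : ℝ) * (univ.filter (fun g => j ∈ S g)).card -
      ∑ j, ((univ.filter (fun g => j ∈ S g)).card : ℝ) := by
    rw [← sum_sub_distrib]
    exact sum_congr rfl fun j _ => by ring
  rw [h4, h1R, h2R]
  nlinarith

theorem lower_rep {p a b t : ℕ} (hp : 1 ≤ p) (ha : 1 ≤ a) (hb : 1 ≤ b)
    (S : Fin a ⊕ Fin b → Finset (Fin t))
    (hS : IsRep (completeBipartiteGraph (Fin a) (Fin b)) p t S) :
    L p ((a : ℝ) / b) * (a * b) ≤ t := by
  classical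
  have haR : (1 : ℝ) ≤ a := by exact_mod_cast ha
  have hbR : (1 : ℝ) ≤ b := by exact_mod_cast hb
  have hab : (0 : ℝ) < a * b := by positivity
  have h1 := dc (fun g : Fin a => S (Sum.inl g)) (fun h : Fin b => S (Sum.inr h))
  have hcross : p * (a * b) ≤ ∑ g : Fin a, ∑ h : Fin b, (S (Sum.inl g) ∩ S (Sum.inr h)).card := by
    calc p * (a * b) = ∑ _g : Fin a, ∑ _h : Fin b, p := by
          simp
          ring
      _ ≤ _ := sum_le_sum fun g _ => sum_le_sum fun h _ =>
          (hS (Sum.inl g) (Sum.inr h) (by simp)).1 (by simp [completeBipartiteGraph])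
  have hL := dc_same hp (fun g : Fin a => S (Sum.inl g)) (fun g g' hg => by
    by_contra hlt
    have := (hS (Sum.inl g) (Sum.inl g') (by simpa using hg)).2 (not_lt.1 hlt)
    simp [completeBipartiteGraph] at this)
  have hR := dc_same hp (fun g : Fin b => S (Sum.inr g)) (fun g g' hg => by
    by_contra hlt
    have := (hS (Sum.inr g) (Sum.inr g') (by simpa using hg)).2 (not_lt.1 hlt)
    simp [completeBipartiteGraph] at this)
  rw [Fintype.card_fin] at hL hR
  have hf : Feasible p ((a : ℝ) / b) (fun j : Fin t => (univ.filter (fun g : Fin a => j ∈ S (Sum.inl g))).card)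
      (fun j : Fin t => (univ.filter (fun g : Fin b => j ∈ S (Sum.inr g))).card)
      (fun _ => 1 / ((a : ℝ) * b)) := by
    refine ⟨fun _ => by positivity, ?_, ?_, ?_⟩
    · rw [← mul_sum, one_div, ← div_eq_inv_mul, le_div_iff₀ hab]
      rw [← h1] at hcross
      exact_mod_cast hcross
    · rw [← mul_sum, one_div, ← div_eq_inv_mul, div_le_iff₀ hab]
      refine hL.trans (le_of_eq ?_)
      field_simp
    · rw [← mul_sum, one_div, ← div_eq_inv_mul, div_le_iff₀ hab]
      refine hR.trans (le_of_eq ?_)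
      field_simp
  have h2 := L_le hf
  rw [sum_const, card_univ, Fintype.card_fin, nsmul_eq_mul, mul_one_div, le_div_iff₀ hab] at h2
  exact h2

/-! ### the upper bound -/

theorem fin_est {p q W P c N z K d ε : ℝ} (hq : 0 < q) (hp : 0 ≤ p) (hd : 0 ≤ d) (hd1 : d ≤ 1 / 2)
    (hz : 0 ≤ z) (hN : 0 < N) (hK : 0 ≤ K) (hW : 0 ≤ W) (hc : 0 ≤ c) (h1 : W * P = (1 - d) * (p * q))
    (h2 : W * N ≤ (1 - d) * q) (h3 : c ≤ N * z + K) (h4 : K / N ≤ ε / 2)
    (h5 : p * (d + d) ≤ ε / 2) : p * q - (1 - d) * W * (P - c) ≤ (z + ε) * q := by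
  have e1 : W * c ≤ q * (z + K / N) := by
    calc W * c ≤ W * (N * z + K) := mul_le_mul_of_nonneg_left h3 hW
      _ = (W * N) * (z + K / N) := by field_simp
      _ ≤ ((1 - d) * q) * (z + K / N) := mul_le_mul_of_nonneg_right h2 (by positivity)
      _ ≤ q * (z + K / N) := by
          refine mul_le_mul_of_nonneg_right ?_ (by positivity)
          nlinarith
  have e2 : (1 - d) * W * (P - c) = (1 - d) * ((1 - d) * (p * q)) - (1 - d) * (W * c) := by
    rw [← h1]
    ring
  have e3 : 0 ≤ d ^ 2 * (p * q) := by positivity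
  have e4 : 0 ≤ d * (W * c) := by positivity
  have e5 : (p * (d + d)) * q ≤ ε / 2 * q := mul_le_mul_of_nonneg_right h5 hq.le
  have e6 : q * (K / N) ≤ q * (ε / 2) := mul_le_mul_of_nonneg_left h4 hq.le
  rw [e2]
  nlinarith

theorem upper_asym (p : ℕ) (hp : 1 ≤ p) {α : ℝ} (hα : 0 < α) {m : ℕ} {x y : Fin m → ℕ}
    {w : Fin m → ℝ} (hf : Feasible p α x y w) (ε : ℝ) (hε : 0 < ε) :
    ∃ (δ : ℝ) (n0 : ℕ), 0 < δ ∧ ∀ a b : ℕ, n0 ≤ a → n0 ≤ b → |(a : ℝ) / b - α| ≤ δ →
      ∃ (t : ℕ) (S : Fin a ⊕ Fin b → Finset (Fin t)),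
        IsRep (completeBipartiteGraph (Fin a) (Fin b)) p t S ∧
        (t : ℝ) ≤ (∑ i, w i + ε) * (a * b) := by
  classical
  have hp1 : (1 : ℝ) ≤ p := by exact_mod_cast hp
  have hp0 : (0 : ℝ) < p := by linarith
  set z : ℝ := ∑ i, w i with hz
  have hz0 : 0 ≤ z := sum_nonneg' hf
  set d : ℝ := min (1 / 2) (ε / (4 * p)) with hd
  have hd0 : 0 < d := lt_min (by norm_num) (by positivity)
  have hd1 : d ≤ 1 / 2 := min_le_left _ _
  have hd2 : p * (d + d) ≤ ε / 2 := by
    have h1 : d ≤ ε / (4 * p) := min_le_right _ _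
    rw [le_div_iff₀ (by positivity)] at h1
    linarith
  set C0 : ℕ := ∑ i, x i * y i with hC0
  set N : ℕ := ⌈2 * ((C0 : ℝ) + 3) / ε⌉₊ + 1 with hN
  have hN1 : (1 : ℝ) ≤ N := by
    rw [hN]
    push_cast
    linarith [Nat.cast_nonneg (α := ℝ) ⌈2 * ((C0 : ℝ) + 3) / ε⌉₊]
  have hN0 : (0 : ℝ) < N := by linarith
  have hN2 : ((C0 : ℝ) + 3) / N ≤ ε / 2 := by
    have h1 : 2 * ((C0 : ℝ) + 3) / ε ≤ N :=
      (Nat.le_ceil _).trans (Nat.cast_le.2 (Nat.le_succ _))
    rw [div_le_iff₀ hε] at h1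
    rw [div_le_iff₀ hN0]
    linarith
  set k : Fin m → ℕ := fun i => if x i * y i = 0 then 0 else ⌊(N : ℝ) * w i⌋₊ with hk
  have hNw : ∀ i, 0 ≤ (N : ℝ) * w i := fun i => mul_nonneg hN0.le (hf.nonneg i)
  have hk1 : ∀ i, (k i : ℝ) ≤ N * w i := by
    intro i
    simp only [hk]
    split_ifs
    · simpa using hNw i
    · exact Nat.floor_le (hNw i)
  have hk2 : ∀ i, (N : ℝ) * w i * (x i * y i) ≤ k i * (x i * y i) + x i * y i := by
    intro i
    simp only [hk]
    split_ifs with h0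
    · have h1 : (x i : ℝ) * y i = 0 := by exact_mod_cast h0
      rw [h1]
      simp
    · have h1 := (Nat.lt_floor_add_one ((N : ℝ) * w i)).le
      have h2 : (0 : ℝ) ≤ (x i : ℝ) * y i := by positivity
      nlinarith
  -- the template
  let I : Type := (Σ i : Fin m, Fin (k i)) ⊕ Fin (C0 + 3)
  let X : I → ℕ := Sum.elim (fun s => x s.1) (fun _ => 1)
  let Y : I → ℕ := Sum.elim (fun s => y s.1) (fun _ => 1)
  have hxy : ∀ s : (Σ i : Fin m, Fin (k i)), x s.1 * y s.1 ≠ 0 := by
    intro s h0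
    have h1 := s.2.2
    have h2 : k s.1 = 0 := by
      simp only [hk]
      rw [if_pos h0]
    omega
  have hX : ∀ i, 1 ≤ X i := by
    rintro (s | s)
    · exact Nat.one_le_iff_ne_zero.2 (left_ne_zero_of_mul (hxy s))
    · exact le_rfl
  have hY : ∀ i, 1 ≤ Y i := by
    rintro (s | s)
    · exact Nat.one_le_iff_ne_zero.2 (right_ne_zero_of_mul (hxy s))
    · exact le_rfl
  have hsum : ∀ f : ℕ → ℕ → ℝ, ∑ i, f (X i) (Y i) =
      ∑ i, (k i : ℝ) * f (x i) (y i) + (C0 + 3) * f 1 1 := by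
    intro f
    simp only [I, X, Y]
    rw [Fintype.sum_sum_type, Fintype.sum_sigma]
    simp
  have hZ : 3 ≤ ∑ i, X i + ∑ i, Y i := by
    have h1 : ∀ X' : I → ℕ, (∀ i, 1 ≤ X' i) → C0 + 3 ≤ ∑ i, X' i := by
      intro X' hX'
      calc C0 + 3 ≤ Fintype.card I := by
            simp only [I]
            rw [Fintype.card_sum, Fintype.card_fin]
            omega
        _ = ∑ _i : I, 1 := by simp
        _ ≤ _ := sum_le_sum fun i _ => hX' i
    have h2 := h1 X hX
    omega
  set P : ℝ := ∑ i, (X i : ℝ) * Y i with hP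
  have hPe : P = ∑ i, (k i : ℝ) * (x i * y i) + (C0 + 3) := by
    have := hsum (fun s t => (s : ℝ) * t)
    simpa using this
  have hPN : (N : ℝ) * p ≤ P := by
    have h1 : (N : ℝ) * p ≤ ∑ i, (N : ℝ) * w i * (x i * y i) := by
      calc (N : ℝ) * p ≤ N * ∑ i, w i * (x i * y i) := mul_le_mul_of_nonneg_left hf.cross hN0.le
        _ = _ := by
          rw [mul_sum]
          exact sum_congr rfl fun i _ => by ring
    have h2 : ∑ i, (N : ℝ) * w i * (x i * y i) ≤ ∑ i, (k i : ℝ) * (x i * y i) + C0 := by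
      refine (sum_le_sum fun i _ => hk2 i).trans (le_of_eq ?_)
      rw [sum_add_distrib, hC0]
      push_cast
      rfl
    rw [hPe]
    linarith
  have hP0 : 0 < P := lt_of_lt_of_le (by positivity) hPN
  have hQ : ∀ x : ℕ, (0 : ℝ) ≤ (x : ℝ) * (x - 1) := by
    intro x
    rcases Nat.eq_zero_or_pos x with h | h
    · rw [h]
      simp
    · have : (1 : ℝ) ≤ x := by exact_mod_cast h
      nlinarith
  have hQA : ∑ i, (X i : ℝ) * (X i - 1) ≤ N * ((p - 1) * α) := by
    have h1 := hsum (fun s t => (s : ℝ) * (s - 1))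
    rw [h1]
    simp only [Nat.cast_one, sub_self, mul_zero, add_zero]
    calc ∑ i, (k i : ℝ) * (x i * (x i - 1)) ≤ ∑ i, (N * w i) * ((x i : ℝ) * (x i - 1)) :=
          sum_le_sum fun i _ => mul_le_mul_of_nonneg_right (hk1 i) (hQ _)
      _ = N * ∑ i, w i * (x i * (x i - 1)) := by
          rw [mul_sum]
          exact sum_congr rfl fun i _ => by ring
      _ ≤ _ := mul_le_mul_of_nonneg_left hf.left hN0.le
  have hQB : ∑ i, (Y i : ℝ) * (Y i - 1) ≤ N * ((p - 1) / α) := by
    have h1 := hsum (fun s t => (t : ℝ) * (t - 1))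
    rw [h1]
    simp only [Nat.cast_one, sub_self, mul_zero, add_zero]
    calc ∑ i, (k i : ℝ) * (y i * (y i - 1)) ≤ ∑ i, (N * w i) * ((y i : ℝ) * (y i - 1)) :=
          sum_le_sum fun i _ => mul_le_mul_of_nonneg_right (hk1 i) (hQ _)
      _ = N * ∑ i, w i * (y i * (y i - 1)) := by
          rw [mul_sum]
          exact sum_congr rfl fun i _ => by ring
      _ ≤ _ := mul_le_mul_of_nonneg_left hf.right hN0.le
  have hcardI : (Fintype.card I : ℝ) ≤ N * z + (C0 + 3) := by
    have h1 : (Fintype.card I : ℝ) = ∑ i, (k i : ℝ) + (C0 + 3) := by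
      simp only [I]
      rw [Fintype.card_sum, Fintype.card_fin, Fintype.card_sigma]
      simp
    rw [h1]
    have h2 : ∑ i, (k i : ℝ) ≤ N * z := by
      rw [hz, mul_sum]
      exact sum_le_sum fun i _ => hk1 i
    linarith
  have hcardP : (Fintype.card I : ℝ) ≤ P := by
    have : (Fintype.card I : ℝ) = ∑ _i : I, (1 : ℝ) := by simp
    rw [this]
    refine sum_le_sum fun i _ => ?_
    have e1 : (1 : ℝ) ≤ X i := by exact_mod_cast hX i
    have e2 : (1 : ℝ) ≤ Y i := by exact_mod_cast hY i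
    nlinarith
  have hne : Nonempty I := ⟨Sum.inr 0⟩
  set C : ℕ := ⌈2 * α⌉₊ + ⌈2 / α⌉₊ + 1 with hC
  have hCa : 2 * α ≤ C := (Nat.le_ceil _).trans (Nat.cast_le.2 (by omega))
  have hCb : 2 / α ≤ C := (Nat.le_ceil _).trans (Nat.cast_le.2 (by omega))
  obtain ⟨n1, h⟩ := Pool.Agent.W277X.PI.upper X Y p hp hX hY hZ C d hd0 (by linarith)
  refine ⟨d * α, n1 + 1, by positivity, fun a b ha hb hab => ?_⟩
  have ha1 : (1 : ℝ) ≤ a := by exact_mod_cast (by omega : 1 ≤ a)
  have hb1 : (1 : ℝ) ≤ b := by exact_mod_cast (by omega : 1 ≤ b)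
  have ha0 : (0 : ℝ) < a := by linarith
  have hb0 : (0 : ℝ) < b := by linarith
  have hab0 : (0 : ℝ) < a * b := by positivity
  rw [abs_le] at hab
  obtain ⟨hl, hu⟩ := hab
  have hl2 : (1 - d) * α * b ≤ a := by
    have : (1 - d) * α ≤ (a : ℝ) / b := by linarith
    rwa [le_div_iff₀ hb0] at this
  have hu2 : (a : ℝ) ≤ (1 + d) * α * b := by
    have : (a : ℝ) / b ≤ (1 + d) * α := by linarith
    rwa [div_le_iff₀ hb0] at this
  have haC : a ≤ C * min a b := by
    rcases le_total a b with h1 | h1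
    · rw [min_eq_left h1]
      calc a = 1 * a := (one_mul _).symm
        _ ≤ C * a := Nat.mul_le_mul_right _ (by omega)
    · rw [min_eq_right h1]
      have : (a : ℝ) ≤ C * b := by
        calc (a : ℝ) ≤ (1 + d) * α * b := hu2
          _ ≤ (2 * α) * b := by
            refine mul_le_mul_of_nonneg_right ?_ hb0.le
            nlinarith
          _ ≤ C * b := mul_le_mul_of_nonneg_right hCa hb0.le
      exact_mod_cast this
  have hbC : b ≤ C * min a b := by
    rcases le_total a b with h1 | h1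
    · rw [min_eq_left h1]
      have : (b : ℝ) ≤ C * a := by
        have h2 : (b : ℝ) ≤ 2 / α * a := by
          rw [div_mul_eq_mul_div, le_div_iff₀ hα]
          have h3 : 0 ≤ (1 / 2 - d) * (α * b) := mul_nonneg (by linarith) (by positivity)
          nlinarith
        exact h2.trans (mul_le_mul_of_nonneg_right hCb ha0.le)
      exact_mod_cast this
    · rw [min_eq_right h1]
      calc b = 1 * b := (one_mul _).symm
        _ ≤ C * b := Nat.mul_le_mul_right _ (by omega)
  set W : ℝ := (1 - d) * (p * (a * b)) / P with hW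
  have hWP : W * P = (1 - d) * (p * (a * b)) := by
    rw [hW, div_mul_cancel₀ _ hP0.ne']
  have hW0 : 0 < W := div_pos (mul_pos (by linarith) (by positivity)) hP0
  have hWN : W * N ≤ (1 - d) * (a * b) := by
    have h1 : (W * N) * p ≤ ((1 - d) * (a * b)) * p := by
      calc (W * N) * p = W * (N * p) := by ring
        _ ≤ W * P := mul_le_mul_of_nonneg_left hPN hW0.le
        _ = ((1 - d) * (a * b)) * p := by rw [hWP]; ring
    exact le_of_mul_le_mul_right h1 hp0
  obtain ⟨t, S, hS, ht⟩ := h (min a b) a b W (by omega) (min_le_left _ _) (min_le_right _ _)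
    haC hbC hW0
    (by
      rw [hWP]
      have : 0 < d * (p * (a * b)) := by positivity
      linarith)
    (by
      calc W * ∑ i, (X i : ℝ) * (X i - 1) ≤ W * (N * ((p - 1) * α)) :=
            mul_le_mul_of_nonneg_left hQA hW0.le
        _ = (W * N) * ((p - 1) * α) := by ring
        _ ≤ ((1 - d) * (a * b)) * ((p - 1) * α) :=
            mul_le_mul_of_nonneg_right hWN (mul_nonneg (by linarith) hα.le)
        _ = (p - 1) * a * ((1 - d) * α * b) := by ring
        _ ≤ (p - 1) * a * a := mul_le_mul_of_nonneg_left hl2 (mul_nonneg (by linarith) ha0.le)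
        _ = (p - 1) * a ^ 2 := by ring)
    (by
      calc W * ∑ i, (Y i : ℝ) * (Y i - 1) ≤ W * (N * ((p - 1) / α)) :=
            mul_le_mul_of_nonneg_left hQB hW0.le
        _ = (W * N) * ((p - 1) / α) := by ring
        _ ≤ ((1 - d) * (a * b)) * ((p - 1) / α) :=
            mul_le_mul_of_nonneg_right hWN (div_nonneg (by linarith) hα.le)
        _ = (p - 1) * b * ((1 - d) * a / α) := by ring
        _ ≤ (p - 1) * b * b := by
            refine mul_le_mul_of_nonneg_left ?_ (mul_nonneg (by linarith) hb0.le)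
            rw [div_le_iff₀ hα]
            have h1 : (1 - d) * (a : ℝ) ≤ (1 - d) * ((1 + d) * α * b) :=
              mul_le_mul_of_nonneg_left hu2 (by linarith)
            have h2 : 0 ≤ d ^ 2 * (α * b) := by positivity
            nlinarith
        _ = (p - 1) * b ^ 2 := by ring)
  refine ⟨t, S, hS, ht.trans ?_⟩
  exact fin_est hab0 (by linarith) hd0.le hd1 hz0 hN0 (by positivity) hW0.le (Nat.cast_nonneg _) hWP
    hWN hcardI hN2 hd2

/-! ### the limit -/

theorem limit (p : ℕ) (hp : 1 ≤ p) {α : ℝ} (hα : 0 < α) (a b : ℕ → ℕ) (ha : Tendsto a atTop atTop)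
    (hb : Tendsto b atTop atTop) (hab : Tendsto (fun n => (a n : ℝ) / b n) atTop (𝓝 α)) :
    Tendsto (fun n => (theta (completeBipartiteGraph (Fin (a n)) (Fin (b n))) p : ℝ) /
      ((a n : ℝ) * b n)) atTop (𝓝 (L p α)) := by
  have hp1 : (1 : ℝ) ≤ p := by exact_mod_cast hp
  have hup : ∀ c : ℝ, L p α < c → ∀ᶠ n in atTop,
      ∃ (t : ℕ) (S : Fin (a n) ⊕ Fin (b n) → Finset (Fin t)),
        IsRep (completeBipartiteGraph (Fin (a n)) (Fin (b n))) p t S ∧
        (t : ℝ) < c * ((a n : ℝ) * b n) := by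
    intro c hc
    obtain ⟨m, x, y, w, hf, hw⟩ := exists_near p hp hα hc
    obtain ⟨δ, n0, hδ, h⟩ := upper_asym p hp hα hf ((c - ∑ i, w i) / 2) (by linarith)
    have h1 := (Metric.tendsto_nhds.1 hab) δ hδ
    filter_upwards [h1, ha.eventually_ge_atTop n0, hb.eventually_ge_atTop n0,
      ha.eventually_ge_atTop 1, hb.eventually_ge_atTop 1] with n h2 h3 h4 h5 h6
    rw [Real.dist_eq] at h2
    obtain ⟨t, S, hS, ht⟩ := h (a n) (b n) h3 h4 h2.le
    refine ⟨t, S, hS, lt_of_le_of_lt ht ?_⟩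
    have h7 : (0 : ℝ) < (a n : ℝ) * b n := by
      have e1 : (0 : ℝ) < a n := by exact_mod_cast h5
      have e2 : (0 : ℝ) < b n := by exact_mod_cast h6
      positivity
    refine mul_lt_mul_of_pos_right ?_ h7
    linarith
  have hexist : ∀ᶠ n in atTop, ∃ S : Fin (a n) ⊕ Fin (b n) →
      Finset (Fin (theta (completeBipartiteGraph (Fin (a n)) (Fin (b n))) p)),
      IsRep (completeBipartiteGraph (Fin (a n)) (Fin (b n))) p _ S := by
    filter_upwards [hup (L p α + 1) (by linarith)] with n hn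
    obtain ⟨t, S, hS, -⟩ := hn
    exact Nat.sInf_mem (s := {t : ℕ | ∃ S : Fin (a n) ⊕ Fin (b n) → Finset (Fin t),
      IsRep (completeBipartiteGraph (Fin (a n)) (Fin (b n))) p t S}) ⟨t, S, hS⟩
  refine tendsto_order.2 ⟨fun c hc => ?_, fun c hc => ?_⟩
  · -- lower bound
    have h1 : Tendsto (fun n => max (((a n : ℝ) / b n) / α) (α / ((a n : ℝ) / b n))) atTop
        (𝓝 (max (α / α) (α / α))) :=
      (hab.div_const α).max (tendsto_const_nhds.div hab hα.ne')
    rw [max_self, div_self hα.ne'] at h1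
    have h2 : Tendsto (fun n => L p α - p * (1 - 1 / max (((a n : ℝ) / b n) / α)
        (α / ((a n : ℝ) / b n)))) atTop (𝓝 (L p α - p * (1 - 1 / 1))) :=
      tendsto_const_nhds.sub (tendsto_const_nhds.mul (tendsto_const_nhds.sub
        (tendsto_const_nhds.div h1 one_ne_zero)))
    have h3 : L p α - p * (1 - 1 / 1) = L p α := by norm_num
    rw [h3] at h2
    filter_upwards [h2.eventually (lt_mem_nhds hc), hexist, ha.eventually_ge_atTop 1,
      hb.eventually_ge_atTop 1] with n h4 h5 h6 h7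
    obtain ⟨S, hS⟩ := h5
    have e1 : (0 : ℝ) < a n := by exact_mod_cast h6
    have e2 : (0 : ℝ) < b n := by exact_mod_cast h7
    have e3 : (0 : ℝ) < (a n : ℝ) / b n := div_pos e1 e2
    have h8 := lower_rep hp h6 h7 S hS
    have h9 := L_scale p hp (α := α) (β := (a n : ℝ) / b n)
      (ρ := max (((a n : ℝ) / b n) / α) (α / ((a n : ℝ) / b n))) hα e3
      (by
        rcases le_total α ((a n : ℝ) / b n) with h | h
        · exact le_max_of_le_left ((one_le_div hα).2 h)
        · exact le_max_of_le_right ((one_le_div e3).2 h))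
      (by
        rw [← div_le_iff₀ hα]
        exact le_max_left _ _)
      (by
        rw [← div_le_iff₀ e3]
        exact le_max_right _ _)
    have h10 : c < L p ((a n : ℝ) / b n) := by linarith
    rw [lt_div_iff₀ (by positivity)]
    exact lt_of_lt_of_le (mul_lt_mul_of_pos_right h10 (by positivity)) h8
  · filter_upwards [hup c hc, ha.eventually_ge_atTop 1, hb.eventually_ge_atTop 1] with n h1 h2 h3
    obtain ⟨t, S, hS, ht⟩ := h1
    have e1 : (0 : ℝ) < a n := by exact_mod_cast h2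
    have e2 : (0 : ℝ) < b n := by exact_mod_cast h3
    rw [div_lt_iff₀ (by positivity)]
    refine lt_of_le_of_lt ?_ ht
    have : theta (completeBipartiteGraph (Fin (a n)) (Fin (b n))) p ≤ t :=
      Nat.sInf_le ⟨S, hS⟩
    exact_mod_cast this

/-! ### explicit values -/

theorem int_nonneg (n : ℤ) : (0 : ℝ) ≤ (n : ℝ) * ((n : ℝ) - 1) := by
  have h : 0 ≤ n * (n - 1) := by
    rcases le_or_gt n 0 with h | h
    · nlinarith
    · exact mul_nonneg h.le (by omega)
  exact_mod_cast h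

theorem Φ_le (p : ℕ) (hp : 1 ≤ p) (c h : ℕ) (hc : 1 ≤ c) (hh : 1 ≤ h) {α : ℝ} (hα : 0 < α) :
    Φ p c h α ≤ L p α := by
  have c0 : (0 : ℝ) < c := by exact_mod_cast hc
  have h0 : (0 : ℝ) < h := by exact_mod_cast hh
  have key := dual_le p hp hα (4 / ((c + 1) * (h + 1))) (2 / (c * (c + 1) * (h + 1)))
    (1 / (h * (h + 1)) + 2 * c / ((c + 1) * (h + 1))) (by positivity) (by positivity)
    (by positivity) (by
      intro x y
      have e1 := int_nonneg ((x : ℤ) - c * y)
      have e2 := int_nonneg ((y : ℤ) - h)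
      push_cast at e1 e2
      have e3 : 0 ≤ 2 / (c * (c + 1) * (h + 1)) * (((x : ℝ) - c * y) * ((x : ℝ) - c * y - 1)) +
          1 / (h * (h + 1)) * (((y : ℝ) - h) * ((y : ℝ) - h - 1)) :=
        add_nonneg (mul_nonneg (by positivity) e1) (mul_nonneg (by positivity) e2)
      have e4 : 1 - (4 / (((c : ℝ) + 1) * (h + 1)) * (x * y) -
          2 / (c * (c + 1) * (h + 1)) * (x * (x - 1)) -
          (1 / (h * (h + 1)) + 2 * c / ((c + 1) * (h + 1))) * (y * (y - 1))) =
          2 / (c * (c + 1) * (h + 1)) * (((x : ℝ) - c * y) * ((x : ℝ) - c * y - 1)) +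
          1 / (h * (h + 1)) * (((y : ℝ) - h) * ((y : ℝ) - h - 1)) := by
        field_simp
        ring
      linarith)
  refine le_trans (le_of_eq ?_) key
  unfold Φ
  field_simp
  ring

theorem Ψ_le (c : ℕ) (hc : 1 ≤ c) {α : ℝ} (hα : 0 < α) : Ψ c α ≤ L 2 α := by
  have c0 : (0 : ℝ) < c := by exact_mod_cast hc
  have key := dual_le 2 (by norm_num) hα ((2 * c + 1) / (c + 1) ^ 2) (1 / (c + 1) ^ 2)
    ((3 * c + 1) / (2 * (c + 1))) (by positivity) (by positivity) (by positivity) (by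
      intro x y
      have e4 : 1 - ((2 * (c : ℝ) + 1) / (c + 1) ^ 2 * (x * y) - 1 / (c + 1) ^ 2 * (x * (x - 1)) -
          (3 * c + 1) / (2 * (c + 1)) * (y * (y - 1))) =
          ((2 * (x : ℝ) - (2 * c + 1) * y - 1) ^ 2 +
            ((y : ℝ) - 1) * ((2 * (c ^ 2 + 2 * c) + 1) * y - (4 * (c ^ 2 + 2 * c) + 3))) /
            (4 * (c + 1) ^ 2) := by
        field_simp
        ring
      have e5 : (0 : ℝ) ≤ (2 * (x : ℝ) - (2 * c + 1) * y - 1) ^ 2 +
            ((y : ℝ) - 1) * ((2 * (c ^ 2 + 2 * c) + 1) * y - (4 * (c ^ 2 + 2 * c) + 3)) := by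
        rcases lt_trichotomy y 2 with hy | hy | hy
        · interval_cases y
          · push_cast
            nlinarith [sq_nonneg (2 * (x : ℝ) - 1)]
          · push_cast
            nlinarith [sq_nonneg (2 * (x : ℝ) - (2 * c + 1) - 1)]
        · subst hy
          have h1 : (1 : ℤ) ≤ (2 * (x : ℤ) - (2 * c + 1) * 2 - 1) ^ 2 := by
            have h2 : (2 * (x : ℤ) - (2 * c + 1) * 2 - 1) ≠ 0 := by omega
            have := sq_nonneg (2 * (x : ℤ) - (2 * c + 1) * 2 - 1)
            have h3 : (2 * (x : ℤ) - (2 * c + 1) * 2 - 1) ^ 2 ≠ 0 := pow_ne_zero 2 h2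
            omega
          have h1R : (1 : ℝ) ≤ (2 * (x : ℝ) - (2 * c + 1) * 2 - 1) ^ 2 := by exact_mod_cast h1
          push_cast
          nlinarith
        · have hy3 : (3 : ℝ) ≤ y := by exact_mod_cast hy
          have h2 : 0 ≤ ((y : ℝ) - 1) * ((2 * (c ^ 2 + 2 * c) + 1) * y - (4 * (c ^ 2 + 2 * c) + 3)) := by
            refine mul_nonneg (by linarith) ?_
            have h3 : (2 * ((c : ℝ) ^ 2 + 2 * c) + 1) * 3 ≤ (2 * ((c : ℝ) ^ 2 + 2 * c) + 1) * y :=
              mul_le_mul_of_nonneg_left hy3 (by positivity)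
            nlinarith [sq_nonneg (c : ℝ)]
          positivity
      have e6 : 0 ≤ ((2 * (x : ℝ) - (2 * c + 1) * y - 1) ^ 2 +
            ((y : ℝ) - 1) * ((2 * (c ^ 2 + 2 * c) + 1) * y - (4 * (c ^ 2 + 2 * c) + 3))) /
            (4 * ((c : ℝ) + 1) ^ 2) := div_nonneg e5 (by positivity)
      linarith)
  refine le_trans (le_of_eq ?_) key
  unfold Ψ
  push_cast
  field_simp
  ring

/-- the first family is exact if the conditions hold -/
theorem Φ_eq (p : ℕ) (hp : 1 ≤ p) (c h : ℕ) (hc : 1 ≤ c) (hh : 1 ≤ h) {α : ℝ} (hα : 0 < α)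
    (E : ℝ) (hE : E * (c * (c + 1)) = 2 * c * p + c * (p - 1) / α - (p - 1) * α)
    (h1 : c * E ≤ p) (h2 : p + (p - 1) / α ≤ (c + 1) * E)
    (h3 : h * (E - (p - 1) / α) ≤ E) (h4 : E ≤ (h + 1) * (E - (p - 1) / α)) :
    L p α = Φ p c h α := by
  have c0 : (0 : ℝ) < c := by exact_mod_cast hc
  have h0 : (0 : ℝ) < h := by exact_mod_cast hh
  refine le_antisymm ?_ (Φ_le p hp c h hc hh hα)
  set F : ℝ := E - (p - 1) / α with hF
  have hFD : p - c * E ≤ F := by
    rw [hF]
    linarith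
  have hF0 : 0 ≤ F := le_trans (by linarith) hFD
  set B : ℝ := ((h + 1) * F - E) / h with hB
  set B' : ℝ := (E - h * F) / (h + 1) with hB'
  set f : ℝ := (p - c * E) / F with hf
  have hBe : B * h = (h + 1) * F - E := by rw [hB]; field_simp
  have hBe' : B' * (h + 1) = E - h * F := by rw [hB']; field_simp
  have hfe : f * F = p - c * E := by
    rcases eq_or_lt_of_le hF0 with h5 | h5
    · rw [← h5, mul_zero]
      linarith
    · rw [hf, div_mul_cancel₀ _ h5.ne']
  have hB0 : 0 ≤ B := div_nonneg (by linarith) h0.le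
  have hB0' : 0 ≤ B' := div_nonneg (by linarith) (by linarith)
  have hf0 : 0 ≤ f := div_nonneg (by linarith) hF0
  have hf1 : f ≤ 1 := div_le_one_of_le₀ hFD hF0
  have hfeas : Feasible p α ![c * h, c * h + 1, c * (h + 1), c * (h + 1) + 1] ![h, h, h + 1, h + 1]
      ![B * (1 - f), B * f, B' * (1 - f), B' * f] := by
    refine ⟨?_, ?_, ?_, ?_⟩
    · intro i
      fin_cases i
      · exact mul_nonneg hB0 (by linarith)
      · exact mul_nonneg hB0 hf0
      · exact mul_nonneg hB0' (by linarith)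
      · exact mul_nonneg hB0' hf0
    · rw [Fin.sum_univ_four]
      simp
      have e : B * (1 - f) * (↑c * ↑h * ↑h) + B * f * ((↑c * ↑h + 1) * ↑h) +
          B' * (1 - f) * (↑c * (↑h + 1) * (↑h + 1)) + B' * f * ((↑c * (↑h + 1) + 1) * (↑h + 1)) =
          (p : ℝ) := by
        linear_combination (c * h + f) * hBe + (c * (h + 1) + f) * hBe' + hfe
      exact e.ge
    · rw [Fin.sum_univ_four]
      simp
      have e : B * (1 - f) * (↑c * ↑h * (↑c * ↑h - 1)) + B * f * ((↑c * ↑h + 1) * (↑c * ↑h)) +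
          B' * (1 - f) * (↑c * (↑h + 1) * (↑c * (↑h + 1) - 1)) +
          B' * f * ((↑c * (↑h + 1) + 1) * (↑c * (↑h + 1))) = ((p : ℝ) - 1) * α := by
        have e2 : c * (2 * p + (p - 1) / α) - (c * (c + 1)) * E = (p - 1) * α := by
          rw [mul_comm ((c : ℝ) * (c + 1)) E, hE]
          ring
        rw [← e2]
        linear_combination (c * (c * h - 1) + 2 * c * f) * hBe +
          (c * (c * (h + 1) - 1) + 2 * c * f) * hBe' + 2 * c * hfe + (-c) * hF
      exact e.le
    · rw [Fin.sum_univ_four]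
      simp
      have e : B * (1 - f) * (↑h * (↑h - 1)) + B * f * (↑h * (↑h - 1)) +
          B' * (1 - f) * ((↑h + 1) * ↑h) + B' * f * ((↑h + 1) * ↑h) = ((p : ℝ) - 1) / α := by
        linear_combination (h - 1) * hBe + h * hBe' - hF
      exact e.le
  refine (L_le hfeas).trans (le_of_eq ?_)
  rw [Fin.sum_univ_four]
  simp
  have e : B * (1 - f) + B * f + B' * (1 - f) + B' * f = B + B' := by ring
  rw [e, hB, hB']
  have hEe : E = (2 * c * p + c * (p - 1) / α - (p - 1) * α) / (c * (c + 1)) := by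
    rw [← hE]
    field_simp
  rw [hF, hEe]
  unfold Φ
  field_simp
  ring

theorem Ψ_eq (c : ℕ) (hc : 1 ≤ c) {α : ℝ} (h1 : 2 * c ≤ α) (h2 : α ^ 2 ≤ 2 * c * α + (c + 1)) :
    L 2 α = Ψ c α := by
  have c1 : (1 : ℝ) ≤ c := by exact_mod_cast hc
  have c0 : (0 : ℝ) < c := by linarith
  have hα : 0 < α := by linarith
  refine le_antisymm ?_ (Ψ_le c hc hα)
  have hA : 0 ≤ ((4 * c + 2) * α - α ^ 2 - (2 * c + 1) * (c + 1)) / ((c + 1) ^ 2 * α) := by
    refine div_nonneg ?_ (by positivity)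
    have e : 0 ≤ (2 * (c : ℝ) + 2) * (α - (c + 1)) := mul_nonneg (by linarith) (by linarith)
    nlinarith
  have hB1 : 0 ≤ ((c + 1) + 2 * c * α - α ^ 2) / (2 * (c + 1) * α) :=
    div_nonneg (by linarith) (by positivity)
  have hB2 : 0 ≤ (α - 2 * c) / (2 * ((c : ℝ) + 1)) := div_nonneg (by linarith) (by positivity)
  have hfeas : Feasible 2 α ![c + 1, 2 * c + 1, 2 * c + 2] ![1, 2, 2]
      ![((4 * c + 2) * α - α ^ 2 - (2 * c + 1) * (c + 1)) / ((c + 1) ^ 2 * α),
        ((c + 1) + 2 * c * α - α ^ 2) / (2 * (c + 1) * α), (α - 2 * c) / (2 * ((c : ℝ) + 1))] := by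
    refine ⟨?_, ?_, ?_, ?_⟩
    · intro i
      fin_cases i
      · exact hA
      · exact hB1
      · exact hB2
    · rw [Fin.sum_univ_three]
      simp
      refine le_of_eq ?_
      field_simp
      ring
    · rw [Fin.sum_univ_three]
      simp
      refine le_of_eq ?_
      field_simp
      ring
    · rw [Fin.sum_univ_three]
      simp
      refine le_of_eq ?_
      field_simp
      ring
  refine (L_le hfeas).trans (le_of_eq ?_)
  rw [Fin.sum_univ_three]
  simp
  unfold Ψ
  field_simp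
  ring

/-- for `p = 2` the value is the largest member of the two families -/
theorem two {α : ℝ} (hα : 1 ≤ α) :
    IsGreatest {z | ∃ c : ℕ, 1 ≤ c ∧ (z = Φ 2 c 1 α ∨ z = Ψ c α)} (L 2 α) := by
  have hα0 : 0 < α := by linarith
  constructor
  · set c : ℕ := ⌈α / 2⌉₊ with hc
    have hc0 : 0 < c := Nat.ceil_pos.2 (by positivity)
    have hc1 : α ≤ 2 * c := by
      have := Nat.le_ceil (α / 2)
      rw [← hc] at this
      linarith
    have hc2 : 2 * ((c : ℝ) - 1) < α := by
      have := Nat.ceil_lt_add_one (show 0 ≤ α / 2 by positivity)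
      rw [← hc] at this
      linarith
    have c1 : (1 : ℝ) ≤ c := by exact_mod_cast hc0
    have c0 : (0 : ℝ) < c := by linarith
    have hcα : (c : ℝ) ≤ α := by
      rcases Nat.lt_or_ge c 2 with h | h
      · have : c = 1 := by omega
        rw [this]
        push_cast
        exact hα
      · have : (2 : ℝ) ≤ c := by exact_mod_cast h
        linarith
    rcases le_or_gt ((2 * c - 2) * α + c) (α ^ 2) with h | h
    · refine ⟨c, hc0, Or.inl ?_⟩
      refine Φ_eq 2 (by norm_num) c 1 hc0 le_rfl hα0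
        ((4 * c * α + c - α ^ 2) / (c * (c + 1) * α)) ?_ ?_ ?_ ?_ ?_
      · push_cast
        field_simp
        ring
      · push_cast
        rw [← mul_div_assoc, div_le_iff₀ (by positivity)]
        have e : 0 ≤ (c : ℝ) * (α ^ 2 - ((2 * c - 2) * α + c)) := mul_nonneg c0.le (by linarith)
        nlinarith
      · push_cast
        have e1 : (2 : ℝ) + (2 - 1) / α = (2 * α + 1) / α := by
          field_simp
          ring
        have e2 : ((c : ℝ) + 1) * ((4 * c * α + c - α ^ 2) / (c * (c + 1) * α)) =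
            (4 * c * α + c - α ^ 2) / (c * α) := by
          field_simp
        rw [e1, e2, div_le_div_iff₀ hα0 (by positivity)]
        have e3 : 0 ≤ α * (α * (2 * c - α)) := mul_nonneg hα0.le (mul_nonneg hα0.le (by linarith))
        nlinarith
      · push_cast
        have : 0 ≤ (2 - 1) / α := by positivity
        linarith
      · push_cast
        have e1 : 2 / α ≤ (4 * c * α + c - α ^ 2) / (c * (c + 1) * α) := by
          rw [div_le_div_iff₀ hα0 (by positivity)]
          have e2 : 0 ≤ (α - c) * (2 * c - α) + c * (α - 1) :=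
            add_nonneg (mul_nonneg (by linarith) (by linarith)) (mul_nonneg c0.le (by linarith))
          have e3 := mul_nonneg hα0.le e2
          nlinarith
        have e4 : ((2 : ℝ) - 1) / α = (2 / α) / 2 := by ring
        rw [e4]
        linarith
    · rcases Nat.lt_or_ge c 2 with h' | h'
      · exfalso
        have : c = 1 := by omega
        rw [this] at h
        push_cast at h
        nlinarith
      · obtain ⟨d, hd⟩ : ∃ d, c = d + 1 := ⟨c - 1, by omega⟩
        have hdR : (c : ℝ) = d + 1 := by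
          rw [hd]
          push_cast
          ring
        refine ⟨d, by omega, Or.inr ?_⟩
        rw [hdR] at hc2 h
        refine Ψ_eq d (by omega) ?_ ?_
        · linarith
        · nlinarith
  · rintro z ⟨c, hc, rfl | rfl⟩
    · exact Φ_le 2 (by norm_num) c 1 hc le_rfl hα0
    · exact Ψ_le c hc hα0

/-- the value near `α = 1` -/
theorem near_one (p : ℕ) (hp : 2 ≤ p) {α : ℝ} (hα : 1 ≤ α) (hα2 : (p - 1) * α ≤ p) :
    L p α = 2 - (p - 1) / p * α - 1 / α := by
  have p2 : (2 : ℝ) ≤ p := by exact_mod_cast hp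
  have p0 : (0 : ℝ) < p := by linarith
  have hα0 : 0 < α := by linarith
  have hq : (((p - 1 : ℕ) : ℝ)) = (p : ℝ) - 1 := by
    rw [Nat.cast_sub (by omega)]
    simp
  have hp1 : (0 : ℝ) < p - 1 := by linarith
  rw [Φ_eq p (by omega) 1 (p - 1) le_rfl (by omega) hα0
    ((2 * p * α + (p - 1) - (p - 1) * α ^ 2) / (2 * α)) ?_ ?_ ?_ ?_ ?_]
  · unfold Φ
    rw [hq]
    push_cast
    have e : (p : ℝ) - 1 + 1 = p := by ring
    rw [e]
    field_simp
    ring
  · push_cast
    field_simp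
    ring
  · push_cast
    rw [one_mul, div_le_iff₀ (by positivity)]
    have e1 : 0 ≤ (p - 1) * (α ^ 2 - 1) := mul_nonneg hp1.le (by nlinarith)
    nlinarith
  · push_cast
    have e1 : (p : ℝ) + (p - 1) / α = (p * α + (p - 1)) / α := by
      field_simp
    have e2 : ((1 : ℝ) + 1) * ((2 * p * α + (p - 1) - (p - 1) * α ^ 2) / (2 * α)) =
        (2 * p * α + (p - 1) - (p - 1) * α ^ 2) / α := by
      field_simp
      ring
    rw [e1, e2, div_le_div_iff_of_pos_right hα0]
    have e3 := mul_le_mul_of_nonneg_left hα2 hα0.le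
    nlinarith
  · rw [hq]
    have e1 : (2 * p * α + (p - 1) - (p - 1) * α ^ 2) / (2 * α) - (p - 1) / α =
        (2 * p * α - (p - 1) - (p - 1) * α ^ 2) / (2 * α) := by
      field_simp
      ring
    rw [e1, ← mul_div_assoc, div_le_div_iff_of_pos_right (by positivity)]
    have e2 : (p - 1) * (2 * p * α + (p - 1) - (p - 1) * α ^ 2) ≤ (p : ℝ) ^ 2 + (p - 1) ^ 2 := by
      nlinarith [sq_nonneg ((p : ℝ) - (p - 1) * α)]
    have e3 : 0 ≤ ((p : ℝ) - 2) * ((p : ℝ) ^ 2 + (p - 1) ^ 2 -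
        (p - 1) * (2 * p * α + (p - 1) - (p - 1) * α ^ 2)) := mul_nonneg (by linarith) (by linarith)
    have e4 : 0 ≤ ((p : ℝ) - 1) * ((2 * p * α + (p - 1) - (p - 1) * α ^ 2) -
        (p - 1) * (2 * p * α - (p - 1) - (p - 1) * α ^ 2)) := by nlinarith
    have e5 := nonneg_of_mul_nonneg_right e4 hp1
    linarith
  · rw [hq]
    have e1 : (2 * p * α + (p - 1) - (p - 1) * α ^ 2) / (2 * α) - (p - 1) / α =
        (2 * p * α - (p - 1) - (p - 1) * α ^ 2) / (2 * α) := by
      field_simp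
      ring
    have e0 : (p : ℝ) - 1 + 1 = p := by ring
    rw [e0, e1, ← mul_div_assoc, div_le_div_iff_of_pos_right (by positivity)]
    have e3 : 0 ≤ (α - 1) * ((p + 1) - (p - 1) * α) := mul_nonneg (by linarith) (by linarith)
    have e4 := mul_nonneg hp1.le e3
    nlinarith

theorem one {α : ℝ} (hα : 0 < α) : L 1 α = 1 := by
  refine le_antisymm ?_ ?_
  · have h : Feasible 1 α (fun _ : Fin 1 => 1) (fun _ => 1) (fun _ => (1 : ℝ)) := by
      refine ⟨fun _ => zero_le_one, ?_, ?_, ?_⟩ <;> simp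
    have := L_le h
    simpa using this
  · have h := dual_le 1 le_rfl hα 1 1 1 zero_le_one zero_le_one zero_le_one (fun x y => by
      nlinarith [sq_nonneg ((x : ℝ) - 1), sq_nonneg ((y : ℝ) - 1), sq_nonneg ((x : ℝ) - y)])
    simpa using h

/-- the bound by the real relaxation -/
theorem closed (p : ℕ) (hp : 1 ≤ p) {α X Y : ℝ} (hα : 0 < α)
    (hX : X = p * (p + (p - 1) * α) / (2 * p - 1)) (hY : Y = p * (p + (p - 1) / α) / (2 * p - 1)) :
    p / (X * Y) ≤ L p α ∧ ((∃ x y : ℕ, (x : ℝ) = X ∧ (y : ℝ) = Y) → L p α = p / (X * Y)) := by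
  have p1 : (1 : ℝ) ≤ p := by exact_mod_cast hp
  have p0 : (0 : ℝ) < p := by linarith
  have h2p : (0 : ℝ) < 2 * p - 1 := by linarith
  have hq : (0 : ℝ) ≤ p - 1 := by linarith
  have hX1 : 1 ≤ X := by
    rw [hX, le_div_iff₀ h2p]
    have : 0 ≤ (p : ℝ) * ((p - 1) * α) := by positivity
    nlinarith [sq_nonneg ((p : ℝ) - 1)]
  have hY1 : 1 ≤ Y := by
    rw [hY, le_div_iff₀ h2p]
    have : 0 ≤ (p : ℝ) * ((p - 1) / α) := by positivity
    nlinarith [sq_nonneg ((p : ℝ) - 1)]
  have hX0 : 0 < X := by linarith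
  have hY0 : 0 < Y := by linarith
  have h2p' : 2 * (p : ℝ) - 1 ≠ 0 := h2p.ne'
  have hi : α * (1 / α) = 1 := mul_one_div_cancel hα.ne'
  have hX' : X * (2 * p - 1) = p * (p + (p - 1) * α) := by
    rw [hX, div_mul_cancel₀ _ h2p']
  have hY' : Y * (2 * p - 1) = p * (p + (p - 1) * (1 / α)) := by
    rw [hY, div_mul_cancel₀ _ h2p']
    ring
  have r1 : (p - 1) * α = p * (X - 1) / Y := by
    rw [eq_div_iff hY0.ne']
    refine mul_right_cancel₀ h2p' ?_
    linear_combination (p - 1) * α * hY' - p * hX' + p * (p - 1) ^ 2 * hi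
  have r2 : (p - 1) / α = p * (Y - 1) / X := by
    rw [eq_div_iff hX0.ne', div_eq_mul_one_div]
    refine mul_right_cancel₀ h2p' ?_
    linear_combination (p - 1) * (1 / α) * hX' - p * hY' + p * (p - 1) ^ 2 * hi
  have hS : 0 < X + Y - 1 := by linarith
  have low : p / (X * Y) ≤ L p α := by
    have key := dual_le p hp hα ((2 * X - 1) * (2 * Y - 1) / (X * Y * (X + Y - 1)))
      ((2 * Y - 1) / (X * (X + Y - 1))) ((2 * X - 1) / (Y * (X + Y - 1)))
      (div_nonneg (mul_nonneg (by linarith) (by linarith)) (by positivity))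
      (div_nonneg (by linarith) (by positivity)) (div_nonneg (by linarith) (by positivity)) (by
        intro x y
        have e4 : 1 - ((2 * X - 1) * (2 * Y - 1) / (X * Y * (X + Y - 1)) * (x * y) -
            (2 * Y - 1) / (X * (X + Y - 1)) * (x * (x - 1)) -
            (2 * X - 1) / (Y * (X + Y - 1)) * (y * (y - 1))) =
            (4 * (X * Y) * ((2 * Y - 1) * Y * ((x : ℝ) - X) ^ 2 + (2 * X - 1) * X * ((y : ℝ) - Y) ^ 2 -
              (2 * X - 1) * (2 * Y - 1) * (((x : ℝ) - X) * ((y : ℝ) - Y)))) /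
              (4 * (X * Y) * (X * Y * (X + Y - 1))) := by
          field_simp
          ring
        have e5 : 0 ≤ (2 * Y - 1) * Y * ((x : ℝ) - X) ^ 2 + (2 * X - 1) * X * ((y : ℝ) - Y) ^ 2 -
              (2 * X - 1) * (2 * Y - 1) * (((x : ℝ) - X) * ((y : ℝ) - Y)) := by
          set a := (x : ℝ) - X
          set b := (y : ℝ) - Y
          have f1 : (2 * Y - 1) * Y * a ^ 2 + (2 * X - 1) * X * b ^ 2 -
              (2 * X - 1) * (2 * Y - 1) * (a * b) =
              (2 * Y - 1) * Y * (a - (2 * X - 1) / (2 * Y) * b) ^ 2 +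
              (2 * X - 1) * (2 * X + 2 * Y - 1) / (4 * Y) * b ^ 2 := by
            field_simp
            ring
          rw [f1]
          have f2 : 0 ≤ (2 * Y - 1) * Y := mul_nonneg (by linarith) hY0.le
          have f3 : 0 ≤ (2 * X - 1) * (2 * X + 2 * Y - 1) / (4 * Y) :=
            div_nonneg (mul_nonneg (by linarith) (by linarith)) (by positivity)
          positivity
        have e6 := div_nonneg (mul_nonneg (by positivity : 0 ≤ 4 * (X * Y)) e5)
          (by positivity : 0 ≤ 4 * (X * Y) * (X * Y * (X + Y - 1)))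
        linarith)
    refine le_trans (le_of_eq ?_) key
    have e7 : ((p : ℝ) - 1) * ((2 * Y - 1) / (X * (X + Y - 1)) * α +
        (2 * X - 1) / (Y * (X + Y - 1)) / α) = (2 * Y - 1) / (X * (X + Y - 1)) * ((p - 1) * α) +
        (2 * X - 1) / (Y * (X + Y - 1)) * ((p - 1) / α) := by ring
    rw [e7, r1, r2]
    field_simp
    ring
  refine ⟨low, ?_⟩
  rintro ⟨x, y, hx, hy⟩
  refine le_antisymm ?_ low
  have h : Feasible p α (fun _ : Fin 1 => x) (fun _ => y) (fun _ => p / (X * Y)) := by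
    refine ⟨fun _ => by positivity, ?_, ?_, ?_⟩
    · simp only [univ_unique, sum_const, card_singleton, one_smul, hx, hy]
      rw [div_mul_cancel₀ _ (by positivity)]
    · simp only [univ_unique, sum_const, card_singleton, one_smul, hx]
      rw [r1]
      refine le_of_eq ?_
      field_simp
    · simp only [univ_unique, sum_const, card_singleton, one_smul, hy]
      rw [r2]
      refine le_of_eq ?_
      field_simp
  have := L_le h
  simpa using this

theorem exists_rep (p : ℕ) (hp : 1 ≤ p) (a b : ℕ) :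
    ∃ (t : ℕ) (S : Fin a ⊕ Fin b → Finset (Fin t)),
      IsRep (completeBipartiteGraph (Fin a) (Fin b)) p t S := by
  obtain ⟨t, S, hS, -⟩ := Pool.Agent.W277X.PI.build (I := Fin 1) (X := fun _ => 1) (Y := fun _ => 1)
    (a := a) (b := b) hp ∅ (fun e he => absurd he (notMem_empty e))
    (fun e he => absurd he (notMem_empty e))
  exact ⟨t, S, hS⟩

theorem lower (p : ℕ) (hp : 1 ≤ p) (a b : ℕ) (ha : 1 ≤ a) (hb : 1 ≤ b) :
    L p ((a : ℝ) / b) * (a * b) ≤ theta (completeBipartiteGraph (Fin a) (Fin b)) p := by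
  obtain ⟨t, S, hS⟩ := exists_rep p hp a b
  obtain ⟨S', hS'⟩ := Nat.sInf_mem (s := {t : ℕ | ∃ S : Fin a ⊕ Fin b → Finset (Fin t),
      IsRep (completeBipartiteGraph (Fin a) (Fin b)) p t S}) ⟨t, S, hS⟩
  exact lower_rep hp ha hb S' hS'

theorem L_pos (p : ℕ) (hp : 1 ≤ p) {α : ℝ} (hα : 0 < α) : 0 < L p α := by
  have p1 : (1 : ℝ) ≤ p := by exact_mod_cast hp
  have h2p : (0 : ℝ) < 2 * p - 1 := by linarith
  have hq : (0 : ℝ) ≤ p - 1 := by linarith
  have h := (closed p hp hα rfl rfl).1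
  refine lt_of_lt_of_le ?_ h
  have e1 : 0 < (p : ℝ) * (p + (p - 1) * α) / (2 * p - 1) :=
    div_pos (mul_pos (by linarith) (add_pos_of_pos_of_nonneg (by linarith)
      (mul_nonneg hq hα.le))) h2p
  have e2 : 0 < (p : ℝ) * (p + (p - 1) / α) / (2 * p - 1) :=
    div_pos (mul_pos (by linarith) (add_pos_of_pos_of_nonneg (by linarith)
      (div_nonneg hq hα.le))) h2p
  exact div_pos (by linarith) (mul_pos e1 e2)

theorem L_cont (p : ℕ) (hp : 1 ≤ p) {α : ℝ} (hα : 0 < α) (r : ℕ → ℝ)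
    (hr : Tendsto r atTop (𝓝 α)) : Tendsto (fun n => L p (r n)) atTop (𝓝 (L p α)) := by
  have h1 : Tendsto (fun n => max (r n / α) (α / r n)) atTop (𝓝 (max (α / α) (α / α))) :=
    (hr.div_const α).max (tendsto_const_nhds.div hr hα.ne')
  rw [max_self, div_self hα.ne'] at h1
  have h2 : Tendsto (fun n => (p : ℝ) * (1 - 1 / max (r n / α) (α / r n))) atTop
      (𝓝 ((p : ℝ) * (1 - 1 / 1))) :=
    tendsto_const_nhds.mul (tendsto_const_nhds.sub (tendsto_const_nhds.div h1 one_ne_zero))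
  have h3 : (p : ℝ) * (1 - 1 / 1) = 0 := by norm_num
  rw [h3] at h2
  have h4 : ∀ᶠ n in atTop, |L p (r n) - L p α| ≤ (p : ℝ) * (1 - 1 / max (r n / α) (α / r n)) := by
    filter_upwards [hr.eventually (lt_mem_nhds hα)] with n hn
    have hρ : 1 ≤ max (r n / α) (α / r n) := by
      rcases le_total α (r n) with h | h
      · exact le_max_of_le_left ((one_le_div hα).2 h)
      · exact le_max_of_le_right ((one_le_div hn).2 h)
    have e1 : r n ≤ max (r n / α) (α / r n) * α := by
      rw [← div_le_iff₀ hα]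
      exact le_max_left _ _
    have e2 : α ≤ max (r n / α) (α / r n) * r n := by
      rw [← div_le_iff₀ hn]
      exact le_max_right _ _
    have e3 := L_scale p hp hα hn hρ e1 e2
    have e4 := L_scale p hp hn hα hρ e2 e1
    rw [abs_le]
    constructor <;> linarith
  rw [tendsto_iff_norm_sub_tendsto_zero]
  refine squeeze_zero' (Eventually.of_forall fun n => norm_nonneg _) ?_ h2
  filter_upwards [h4] with n hn
  rwa [Real.norm_eq_abs]

/-- **The asymptotics of the `p`-intersection number of complete bipartite graphs.**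
1. If `a, b → ∞` and `a / b → α > 0`, then `ϑ_p(K_{a,b}) / (a b) → L_p(α)`, and
   `ϑ_p(K_{a,b}) / (L_p(a / b) a b) → 1`.
2. `ϑ_p(K_{a,b}) ≥ L_p(a / b) a b` for all `a, b ≥ 1` (and the least number `ϑ_p` is attained).
3. `L_p(α) > 0`, `L_p(1 / α) = L_p(α)`, `L_1(α) = 1`.
4. `L_p(α) = 2 - (p - 1) α / p - 1 / α` for `p ≥ 2` and `1 ≤ α ≤ p / (p - 1)`.
5. For `p = 2` and `α ≥ 1`, `L_2(α)` is the largest of the numbers `Φ 2 c 1 α` and `Ψ c α`, `c ≥ 1`.
6. `L_p(α) ≥ Φ p c h α` for all `c, h ≥ 1`, with equality if certain inequalities hold.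
7. The bound `L_p(α) ≥ p / (X Y)` of the real relaxation, with equality if `X` and `Y` are integers. -/
theorem result :
    -- 1. the asymptotics
    (∀ p : ℕ, 1 ≤ p → ∀ α : ℝ, 0 < α → ∀ a b : ℕ → ℕ, Tendsto a atTop atTop →
      Tendsto b atTop atTop → Tendsto (fun n => (a n : ℝ) / b n) atTop (𝓝 α) →
      Tendsto (fun n => (theta (completeBipartiteGraph (Fin (a n)) (Fin (b n))) p : ℝ) /
        ((a n : ℝ) * b n)) atTop (𝓝 (L p α)) ∧
      Tendsto (fun n => (theta (completeBipartiteGraph (Fin (a n)) (Fin (b n))) p : ℝ) /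
        (L p ((a n : ℝ) / b n) * ((a n : ℝ) * b n))) atTop (𝓝 1)) ∧
    -- 2. the lower bound for all sizes
    (∀ p a b : ℕ, 1 ≤ p → 1 ≤ a → 1 ≤ b →
      (∃ S, IsRep (completeBipartiteGraph (Fin a) (Fin b)) p
        (theta (completeBipartiteGraph (Fin a) (Fin b)) p) S) ∧
      L p ((a : ℝ) / b) * (a * b) ≤ theta (completeBipartiteGraph (Fin a) (Fin b)) p) ∧
    -- 3. general properties of the constant
    (∀ p : ℕ, 1 ≤ p → ∀ α : ℝ, 0 < α → 0 < L p α ∧ L p (1 / α) = L p α) ∧
    (∀ α : ℝ, 0 < α → L 1 α = 1) ∧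
    -- 4. an explicit formula near `α = 1` for all `p`
    (∀ p : ℕ, 2 ≤ p → ∀ α : ℝ, 1 ≤ α → (p - 1) * α ≤ p →
      L p α = 2 - (p - 1) / p * α - 1 / α) ∧
    -- 5. an explicit formula for `p = 2` and all `α`
    (∀ α : ℝ, 1 ≤ α → IsGreatest {z | ∃ c : ℕ, 1 ≤ c ∧ (z = Φ 2 c 1 α ∨ z = Ψ c α)} (L 2 α)) ∧
    -- 6. explicit lower bounds which are exact in certain intervals
    (∀ p c h : ℕ, 1 ≤ p → 1 ≤ c → 1 ≤ h → ∀ α : ℝ, 0 < α → Φ p c h α ≤ L p α ∧
      ∀ E : ℝ, E * (c * (c + 1)) = 2 * c * p + c * (p - 1) / α - (p - 1) * α →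
        c * E ≤ p → p + (p - 1) / α ≤ (c + 1) * E → h * (E - (p - 1) / α) ≤ E →
        E ≤ (h + 1) * (E - (p - 1) / α) → L p α = Φ p c h α) ∧
    -- 7. the bound by the real relaxation
    (∀ p : ℕ, 1 ≤ p → ∀ α X Y : ℝ, 0 < α → X = p * (p + (p - 1) * α) / (2 * p - 1) →
      Y = p * (p + (p - 1) / α) / (2 * p - 1) →
      p / (X * Y) ≤ L p α ∧ ((∃ x y : ℕ, (x : ℝ) = X ∧ (y : ℝ) = Y) → L p α = p / (X * Y))) := by
  refine ⟨fun p hp α hα a b ha hb hab => ?_, fun p a b hp ha hb => ⟨?_, lower p hp a b ha hb⟩,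
    fun p hp α hα => ⟨L_pos p hp hα, L_symm p hp hα⟩, fun α hα => one hα,
    fun p hp α h1 h2 => near_one p hp h1 h2, fun α hα => two hα,
    fun p c h hp hc hh α hα => ⟨Φ_le p hp c h hc hh hα, fun E e1 e2 e3 e4 e5 =>
      Φ_eq p hp c h hc hh hα E e1 e2 e3 e4 e5⟩, fun p hp α X Y hα hX hY => closed p hp hα hX hY⟩
  · have h1 := limit p hp hα a b ha hb hab
    refine ⟨h1, ?_⟩
    have h2 := h1.div (L_cont p hp hα _ hab) (L_pos p hp hα).ne'
    rw [div_self (L_pos p hp hα).ne'] at h2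
    refine h2.congr fun n => ?_
    simp only [Pi.div_apply]
    rw [div_div, mul_comm ((a n : ℝ) * b n)]
  · obtain ⟨t, S, hS⟩ := exists_rep p hp a b
    exact Nat.sInf_mem (s := {t : ℕ | ∃ S : Fin a ⊕ Fin b → Finset (Fin t),
      IsRep (completeBipartiteGraph (Fin a) (Fin b)) p t S}) ⟨t, S, hS⟩

end Pool.Agent.Results.MP_721e2b_co.UnbalancedBipartite
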